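import Pool.Agent.Helper65.BQ.St

set_option autoImplicit false

open Set Topology TopologicalSpace

namespace Pool.Agent.Helper60.BQ

open Pool.Agent.Helper9.SID Pool.Agent.Helper65.BQ

theorem ess_split (hGLU : StGLU) {K : Type} [TopologicalSpace K] [MetrizableSpace K]
    (f : ℕ → K → ℝ) (hf : ∀ k, Continuous (f k)) (κ : ℕ → ℕ) (T T₁ T₂ : Set K)
    (h1 : IsClosed T₁) (h2 : IsClosed T₂) (hd : Disjoint T₁ T₂) (hT : T = T₁ ∪ T₂)
    (hE : Ess f κ T) : Ess f κ T₁ ∨ Ess f κ T₂ := by
  by_contra hcon
  rw [not_or] at hcon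
  obtain ⟨n1, n2⟩ := hcon
  unfold Ess at n1 n2
  push Not at n1 n2
  obtain ⟨L₁, hL₁, e1⟩ := n1
  obtain ⟨L₂, hL₂, e2⟩ := n2
  have key : ∀ i, ∃ N : Set K, IsPartition (lo (f (κ i))) (hi (f (κ i))) N ∧ N ∩ T₁ ⊆ L₁ i ∧ N ∩ T₂ ⊆ L₂ i := by
    intro i
    refine hGLU K T₁ T₂ (lo (f (κ i))) (hi (f (κ i))) (L₁ i) (L₂ i) h1 h2 hd ?_ ?_ ?_ (hL₁ i) (hL₂ i)
    · exact isClosed_le (hf _) continuous_const
    · exact isClosed_le continuous_const (hf _)
    · rw [Set.disjoint_left]
      intro x hx hx'
      have a : f (κ i) x ≤ 0 := hx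
      have b : 1 ≤ f (κ i) x := hx'
      linarith
  choose N hN1 hN2 hN3 using key
  obtain ⟨x, hxT, hxN⟩ := hE N hN1
  rw [mem_iInter] at hxN
  rw [hT] at hxT
  rcases hxT with h | h
  · have : x ∈ T₁ ∩ ⋂ i, L₁ i := ⟨h, mem_iInter.2 (fun i => hN2 i ⟨hxN i, h⟩)⟩
    rw [e1] at this
    exact this
  · have : x ∈ T₂ ∩ ⋂ i, L₂ i := ⟨h, mem_iInter.2 (fun i => hN3 i ⟨hxN i, h⟩)⟩
    rw [e2] at this
    exact this

/-- the points of `T` whose code agrees with `d` below `n` -/
def TT {K : Type} (T : Set K) (g : K → ℝ) (d : ℕ → Bool) (n : ℕ) : Set K :=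
  {x | x ∈ T ∧ ∃ c, jj c = g x ∧ ∀ i < n, c i = d i}

theorem TT_congr {K : Type} (T : Set K) (g : K → ℝ) {d d' : ℕ → Bool} {n : ℕ} (h : ∀ i < n, d i = d' i) :
    TT T g d n = TT T g d' n := by
  ext x
  constructor
  · rintro ⟨hx, c, hc, hc'⟩
    exact ⟨hx, c, hc, fun i hi => (hc' i hi).trans (h i hi)⟩
  · rintro ⟨hx, c, hc, hc'⟩
    exact ⟨hx, c, hc, fun i hi => (hc' i hi).trans (h i hi).symm⟩

theorem TT_closed {K : Type} [TopologicalSpace K] {T : Set K} (hT : IsClosed T) {g : K → ℝ} (hg : Continuous g)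
    (d : ℕ → Bool) (n : ℕ) : IsClosed (TT T g d n) := by
  have hW : IsOpen {q : (ℕ → Bool) × K | ∀ i < n, q.1 i = d i}ᶜ := by
    rw [isOpen_compl_iff]
    have : {q : (ℕ → Bool) × K | ∀ i < n, q.1 i = d i} = ⋂ i, ⋂ (_ : i < n), {q : (ℕ → Bool) × K | q.1 i = d i} := by
      ext q
      simp
    rw [this]
    refine isClosed_iInter fun i => isClosed_iInter fun _ => isClosed_eq ?_ continuous_const
    exact (continuous_apply i).comp continuous_fst
  have h := isClosed_proj g hg _ hW
  have e : TT T g d n = T ∩ {x : K | ∃ c, jj c = g x ∧ (c, x) ∉ {q : (ℕ → Bool) × K | ∀ i < n, q.1 i = d i}ᶜ} := by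
    ext x
    constructor
    · rintro ⟨hx, c, hc, hc'⟩
      exact ⟨hx, c, hc, by simpa using hc'⟩
    · rintro ⟨hx, c, hc, hc'⟩
      exact ⟨hx, c, hc, by simpa using hc'⟩
  rw [e]
  exact hT.inter h

theorem pFIB (hGLU : StGLU) (hCPT : StCPT) : StFIB := by
  intro K _ _ _ f hf κ T g hT hg hcode hE
  have step : ∀ (n : ℕ) (D : ℕ → Bool), Ess f κ (TT T g D n) →
      ∃ b, Ess f κ (TT T g (Function.update D n b) (n + 1)) := by
    intro n D hD
    have hun : TT T g D n = TT T g (Function.update D n true) (n + 1) ∪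
        TT T g (Function.update D n false) (n + 1) := by
      ext x
      constructor
      · rintro ⟨hx, c, hc, hc'⟩
        have hcn : ∀ i < n + 1, c i = Function.update D n (c n) i := by
          intro i hi
          by_cases h : i = n
          · subst h
            simp
          · rw [Function.update_of_ne h]
            exact hc' i (by omega)
        cases hb : c n with
        | true =>
          left
          rw [hb] at hcn
          exact ⟨hx, c, hc, hcn⟩
        | false =>
          right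
          rw [hb] at hcn
          exact ⟨hx, c, hc, hcn⟩
      · rintro (⟨hx, c, hc, hc'⟩ | ⟨hx, c, hc, hc'⟩)
        · refine ⟨hx, c, hc, fun i hi => ?_⟩
          have := hc' i (by omega)
          rwa [Function.update_of_ne (by omega)] at this
        · refine ⟨hx, c, hc, fun i hi => ?_⟩
          have := hc' i (by omega)
          rwa [Function.update_of_ne (by omega)] at this
    have hdis : Disjoint (TT T g (Function.update D n true) (n + 1))
        (TT T g (Function.update D n false) (n + 1)) := by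
      rw [Set.disjoint_left]
      rintro x ⟨_, c, hc, hc'⟩ ⟨_, c₂, hc₂, hc₂'⟩
      have : c = c₂ := jj_inj (hc.trans hc₂.symm)
      subst this
      have a := hc' n (by omega)
      have b := hc₂' n (by omega)
      rw [Function.update_self] at a b
      rw [a] at b
      exact absurd b (by decide)
    rcases ess_split hGLU f hf κ _ _ _ (TT_closed hT hg _ _) (TT_closed hT hg _ _) hdis hun hD with h | h
    · exact ⟨true, h⟩
    · exact ⟨false, h⟩
  choose! β hβ using step
  obtain ⟨D, hD0, hDs⟩ : ∃ D : ℕ → (ℕ → Bool), D 0 = (fun _ => false) ∧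
      ∀ n, D (n + 1) = Function.update (D n) n (β n (D n)) :=
    ⟨fun n => Nat.rec (fun _ => false) (fun n D => Function.update D n (β n D)) n, rfl, fun _ => rfl⟩
  have hD : ∀ n, Ess f κ (TT T g (D n) n) := by
    intro n
    induction n with
    | zero =>
      have : TT T g (D 0) 0 = T := by
        ext x
        constructor
        · rintro ⟨hx, _⟩
          exact hx
        · intro hx
          obtain ⟨c, hc⟩ := hcode x hx
          exact ⟨hx, c, hc, fun i hi => absurd hi (by omega)⟩
      rw [this]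
      exact hE
    | succ n ih =>
      rw [hDs]
      exact hβ n (D n) ih
  have hstab : ∀ n i, i < n → D n i = D (i + 1) i := by
    intro n
    induction n with
    | zero => intro i hi; exact absurd hi (by omega)
    | succ n ih =>
      intro i hi
      by_cases h : i = n
      · rw [h]
      · rw [hDs n, Function.update_of_ne h]
        exact ih i (by omega)
  refine ⟨fun i => D (i + 1) i, ?_⟩
  have hE' : ∀ n, Ess f κ (TT T g (fun i => D (i + 1) i) n) := by
    intro n
    rw [← TT_congr T g (d := D n) (fun i hi => hstab n i hi)]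
    exact hD n
  have hfin := (hCPT K f κ).2.1 (fun n => TT T g (fun i => D (i + 1) i) n)
    (fun n => TT_closed hT hg _ _) ?_ hE'
  · have e : (⋂ n, TT T g (fun i => D (i + 1) i) n) = T ∩ {x | g x = jj (fun i => D (i + 1) i)} := by
      ext x
      rw [mem_iInter]
      constructor
      · intro h
        obtain ⟨hx, c, hc, _⟩ := h 0
        refine ⟨hx, ?_⟩
        have : c = fun i => D (i + 1) i := by
          funext i
          obtain ⟨_, c', hc', hc''⟩ := h (i + 1)
          have e2 : c = c' := jj_inj (hc.trans hc'.symm)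
          rw [e2]
          exact hc'' i (by omega)
        rw [mem_ofPred_eq, ← this]
        exact hc.symm
      · rintro ⟨hx, hx'⟩ n
        exact ⟨hx, _, hx'.symm, fun i _ => rfl⟩
    rw [e] at hfin
    exact hfin
  · intro m n hmn x hx
    obtain ⟨hx, c, hc, hc'⟩ := hx
    exact ⟨hx, c, hc, fun i hi => hc' i (by omega)⟩

end Pool.Agent.Helper60.BQ
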